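import Mathlib
import Pool.Agent.Results.MP_570618_gt.AllThreeFail

open Set Filter Topology Cardinal

namespace Pool.Agent.Y568.EB

open Pool.Agent.Results.MP_570618_gt.AllThreeFail

/-- The separation lemma of the starting file, with the space of functions replaced by an
arbitrary space with real coordinates. -/
theorem key' {T : Type} [LinearOrder T] (w : T → T → ℝ) (hw0 : ∀ d b, 0 < w d b)
    (hw1 : ∀ d b, w d b ≤ 1 / 2) (hT : ∀ d : T, (Iic d).Countable)
    (hb : ∀ P : Set T, P.Countable → ∃ ξ, P ⊆ Iio ξ)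
    {S : Type} [TopologicalSpace S] (v : S → ℕ ⊕ T → ℝ) (hv : ∀ a, Continuous fun s => v s a)
    (F : T → S) (I : S) (hF0 : ∀ d n, v (F d) (Sum.inl n) = 0)
    (hFb : ∀ d b, v (F d) (Sum.inr b) =
      if b = d then 1 else if b < d then w d b else 0)
    (hI : v I (Sum.inl 0) = 2)
    (hall : ∀ s, (∃ n, v s (Sum.inl n) ≠ 0) ∨ ∃ d, s = F d)
    (P : Set T) (hP : P.Countable) :
    ∃ φ : S → ℝ, Continuous φ ∧ (∀ d ∈ P, φ (F d) = 0) ∧
      (∀ d, d ∉ P → φ (F d) = 1) ∧ φ I = 1 := by
  classical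
  obtain ⟨ξ, hξ⟩ := hb P hP
  have : Countable (Iic ξ) := (hT ξ).to_subtype
  let ι : ℕ ⊕ Iic ξ → ℕ ⊕ T := Sum.elim (fun n => Sum.inl n) (fun b => Sum.inr b.1)
  let r : S → (ℕ ⊕ Iic ξ → ℝ) := fun s a => v s (ι a)
  have hr : Continuous r := continuous_pi fun a => hv (ι a)
  let Z := range r
  let R : S → Z := fun s => ⟨r s, s, rfl⟩
  have hR : Continuous R := hr.subtype_mk _
  have hev : ∀ a, Continuous (fun z : Z => z.1 a) := fun a =>
    (continuous_apply a).comp continuous_subtype_val
  let C0 : Set Z := closure (R '' {s | ∃ d ∈ P, s = F d})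
  let C1 : Set Z := closure (R '' {s | (∃ d, d ∉ P ∧ s = F d) ∨ s = I})
  have hdisj : Disjoint C0 C1 := by
    rw [Set.disjoint_left]
    rintro ⟨_, s, rfl⟩ h0 h1
    have hz : ∀ n, v s (Sum.inl n) = 0 := by
      intro n
      have hc : IsClosed {z : Z | z.1 (Sum.inl n) = 0} := isClosed_eq (hev _) continuous_const
      have := closure_minimal (s := R '' {s | ∃ d ∈ P, s = F d})
        (t := {z : Z | z.1 (Sum.inl n) = 0}) (by
          rintro _ ⟨_, ⟨d, _, rfl⟩, rfl⟩
          exact hF0 d n) hc h0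
      exact this
    rcases hall s with ⟨n, hn⟩ | ⟨c, rfl⟩
    · exact hn (hz n)
    · rcases le_or_gt c ξ with hc | hc
      · have hpt : ∀ d, (1 / 2 : ℝ) < v (F d) (Sum.inr c) → d = c := by
          intro d hd
          rw [hFb] at hd
          by_contra hne
          rw [if_neg (fun h => hne h.symm)] at hd
          split_ifs at hd with hlt
          · exact absurd hd (not_lt.2 (hw1 d c))
          · norm_num at hd
        have ho : IsOpen {z : Z | (1 / 2 : ℝ) < z.1 (Sum.inr ⟨c, hc⟩) ∧ z.1 (Sum.inl 0) < 1} :=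
          (isOpen_lt continuous_const (hev _)).inter (isOpen_lt (hev _) continuous_const)
        have hmem : (⟨r (F c), ⟨_, rfl⟩⟩ : Z) ∈
            {z : Z | (1 / 2 : ℝ) < z.1 (Sum.inr ⟨c, hc⟩) ∧ z.1 (Sum.inl 0) < 1} := by
          refine ⟨?_, ?_⟩
          · change (1 / 2 : ℝ) < v (F c) (Sum.inr c)
            rw [hFb, if_pos rfl]
            norm_num
          · change v (F c) (Sum.inl 0) < 1
            rw [hF0]
            norm_num
        obtain ⟨_, hz0, ⟨s0, ⟨d0, hd0, rfl⟩, rfl⟩⟩ := mem_closure_iff.1 h0 _ ho hmem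
        obtain ⟨_, hz1, ⟨s1, hs1, rfl⟩⟩ := mem_closure_iff.1 h1 _ ho hmem
        have hc0 : d0 = c := hpt d0 hz0.1
        rcases hs1 with ⟨d1, hd1, rfl⟩ | rfl
        · have hc1 : d1 = c := hpt d1 hz1.1
          exact hd1 (hc1 ▸ hc0 ▸ hd0)
        · have h2 : v s1 (Sum.inl 0) < 1 := hz1.2
          rw [hI] at h2
          norm_num at h2
      · have hcl : IsClosed {z : Z | z.1 (Sum.inr ⟨ξ, le_refl ξ⟩) = 0} :=
          isClosed_eq (hev _) continuous_const
        have := closure_minimal (s := R '' {s | ∃ d ∈ P, s = F d})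
          (t := {z : Z | z.1 (Sum.inr ⟨ξ, le_refl ξ⟩) = 0}) (by
            rintro _ ⟨_, ⟨d, hd, rfl⟩, rfl⟩
            change v (F d) (Sum.inr ξ) = 0
            have hlt : d < ξ := hξ hd
            rw [hFb, if_neg hlt.ne', if_neg (not_lt.2 hlt.le)]) hcl h0
        have h2 : v (F c) (Sum.inr ξ) = 0 := this
        rw [hFb, if_neg hc.ne, if_pos hc] at h2
        exact absurd h2 (hw0 c ξ).ne'
  obtain ⟨φ, hφ0, hφ1, -⟩ := exists_continuous_zero_one_of_isClosed (X := Z)
    (s := C0) (t := C1) isClosed_closure isClosed_closure hdisj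
  refine ⟨fun s => φ (R s), φ.continuous.comp hR, ?_, ?_, ?_⟩
  · intro d hd
    exact hφ0 (subset_closure ⟨_, ⟨d, hd, rfl⟩, rfl⟩)
  · intro d hd
    exact hφ1 (subset_closure ⟨_, Or.inl ⟨d, hd, rfl⟩, rfl⟩)
  · exact hφ1 (subset_closure ⟨_, Or.inr rfl, rfl⟩)

/-- The construction of the starting file over an arbitrary Tychonoff space that has a discrete
subspace indexed by `ℕ ⊕ T`. -/
theorem main' {T : Type} [LinearOrder T] [WellFoundedLT T] [Uncountable T]
    (hT : ∀ d : T, (Iic d).Countable) (x : T → ℕ → Bool) (hx : Function.Injective x)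
    (g : T ≃ Pt T) (X : Type) [TopologicalSpace X] [T35Space X]
    (y : ℕ ⊕ T → X) (U : ℕ ⊕ T → Set X) (hUo : ∀ i, IsOpen (U i)) (hy : ∀ i, y i ∈ U i)
    (hU : ∀ i k, k ≠ i → y k ∉ U i) :
    ∃ S G : Set (Cp X), IsOpen G ∧ Dense G ∧ G ⊆ S ∧
      ∃ (Y : Type) (_ : TopologicalSpace Y) (_ : T35Space Y) (φ : S → Y),
        Continuous φ ∧ Function.Surjective φ ∧
          ∃ B : Set Y, IsCompact B ∧ ℵ₀ < tightness B ∧ ¬ SequentialSpace B ∧
            ¬ Monolithic B := by
  classical
  have he : ∀ d : T, ∃ f : T → ℕ, InjOn f (Iio d) := fun d =>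
    Set.countable_iff_exists_injOn.1 ((hT d).mono Iio_subset_Iic_self)
  choose e he using he
  have hb := bounded_of_countable hT
  have hbump : ∀ (z : X) (C : Set X), IsClosed C → z ∉ C → ∃ h : X → ℝ, Continuous h ∧
      h z = 1 ∧ (∀ a ∈ C, h a = 0) ∧ ∀ a, |h a| ≤ 1 := by
    intro z C hC hz
    obtain ⟨f, hf, hf0, hf1⟩ := CompletelyRegularSpace.completely_regular z C hC hz
    refine ⟨fun a => 1 - (f a : ℝ), continuous_const.sub (continuous_subtype_val.comp hf),
      by simp [hf0], fun a ha => ?_, fun a => ?_⟩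
    · have := hf1 ha
      simp [this]
    · rw [abs_le]
      have h1 := (f a).2.1
      have h2 := (f a).2.2
      constructor <;> linarith
  have hbump' := fun i => hbump (y i) (U i)ᶜ (hUo i).isClosed_compl (fun h => h (hy i))
  choose h hc hone h0 h1 using hbump'
  -- values at the chosen points
  have hhy : ∀ i k, k ≠ i → h i (y k) = 0 := fun i k hki => h0 i _ (hU i k hki)
  have hyinj : ∀ i k, y i = y k → i = k := by
    intro i k hik
    by_contra hne
    exact hU k i hne (hik ▸ hy k)
  let w : T → T → ℝ := fun d b => (1 / 2) ^ (e d b + 1)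
  have hw0 : ∀ d b, 0 < w d b := fun d b => by positivity
  have hw1 : ∀ d b, w d b ≤ 1 / 2 := by
    intro d b
    calc w d b = (1 / 2) ^ (e d b) * (1 / 2) := pow_succ _ _
      _ ≤ 1 * (1 / 2) := by
          gcongr
          exact pow_le_one₀ (by norm_num) (by norm_num)
      _ = 1 / 2 := one_mul _
  let cc : T → T → ℝ := fun d b => if b = d then 1 else if b < d then w d b else 0
  have hcc0 : ∀ d b, 0 ≤ cc d b := by
    intro d b
    simp only [cc]
    split_ifs
    · exact zero_le_one
    · exact (hw0 d b).le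
    · exact le_rfl
  have hcc : ∀ d, Summable (cc d) := by
    intro d
    have hs1 : Summable (Set.indicator {d} (fun _ : T => (1 : ℝ))) :=
      summable_of_hasFiniteSupport ((Set.finite_singleton d).subset (by
        intro b hb'
        by_contra hne
        exact hb' (Set.indicator_of_notMem hne _)))
    have hs2 : Summable (Set.indicator (Iio d) (w d)) := by
      rw [← summable_subtype_iff_indicator]
      have hgeo : Summable fun n : ℕ => (1 / 2 : ℝ) ^ (n + 1) :=
        (summable_nat_add_iff 1).2 (summable_geometric_of_lt_one (by norm_num) (by norm_num))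
      exact hgeo.comp_injective (i := fun b : Iio d => e d b.1)
        (fun a b hab => Subtype.ext (he d a.2 b.2 hab))
    refine (hs1.add hs2).congr ?_
    intro b
    simp only [cc]
    by_cases hbd : b = d
    · subst hbd
      rw [if_pos rfl, Set.indicator_of_mem (mem_singleton b),
        Set.indicator_of_notMem (show b ∉ Iio b from lt_irrefl b), add_zero]
    · rw [if_neg hbd, Set.indicator_of_notMem (show b ∉ ({d} : Set T) from hbd), zero_add]
      by_cases hlt : b < d
      · rw [if_pos hlt, Set.indicator_of_mem (show b ∈ Iio d from hlt)]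
      · rw [if_neg hlt, Set.indicator_of_notMem (show b ∉ Iio d from hlt)]
  let F : T → Cp X := fun d => ⟨fun z => ∑' b, cc d b * h (Sum.inr b) z, by
    refine continuous_tsum (fun b => continuous_const.mul (hc _)) (hcc d) ?_
    intro b z
    rw [Real.norm_eq_abs, abs_mul, abs_of_nonneg (hcc0 d b)]
    calc cc d b * |h (Sum.inr b) z| ≤ cc d b * 1 :=
          mul_le_mul_of_nonneg_left (h1 _ z) (hcc0 d b)
      _ = cc d b := mul_one _⟩
  have hFr : ∀ d k, (F d).1 (y (Sum.inr k)) = cc d k := by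
    intro d k
    change ∑' b, cc d b * h (Sum.inr b) (y (Sum.inr k)) = cc d k
    rw [tsum_eq_single k]
    · rw [hone, mul_one]
    · intro b hbk
      rw [hhy _ _ (fun hh => hbk (Sum.inr_injective hh).symm), mul_zero]
  have hFl : ∀ d n, (F d).1 (y (Sum.inl n)) = 0 := by
    intro d n
    change ∑' b, cc d b * h (Sum.inr b) (y (Sum.inl n)) = 0
    rw [tsum_congr (fun b => by rw [hhy _ _ Sum.inl_ne_inr, mul_zero]), tsum_zero]
  let I : Cp X := ⟨fun _ => 2, continuous_const⟩
  let G : Set (Cp X) := {f | ∃ n, f.1 (y (Sum.inl n)) ≠ 0}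
  let S : Set (Cp X) := {f | (∃ n, f.1 (y (Sum.inl n)) ≠ 0) ∨ ∃ d, f = F d}
  have hFS : ∀ d, F d ∈ S := fun d => Or.inr ⟨d, rfl⟩
  have hIS : I ∈ S := Or.inl ⟨0, by simp [I]⟩
  have hGS : G ⊆ S := fun f hf => Or.inl hf
  have hGo : IsOpen G := by
    have : G = ⋃ n, {f : Cp X | f.1 (y (Sum.inl n)) ≠ 0} := by
      ext f
      simp [G]
    rw [this]
    exact isOpen_iUnion fun n => isOpen_ne_fun
      ((continuous_apply _).comp continuous_subtype_val) continuous_const
  have hdense : Dense G := by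
    intro f
    rw [mem_closure_iff]
    rintro O hO hfO
    obtain ⟨O', hO', rfl⟩ := isOpen_induced_iff.1 hO
    obtain ⟨J, u, hu, huO⟩ := isOpen_pi_iff.1 hO' f.1 hfO
    have hn : ∃ n : ℕ, y (Sum.inl n) ∉ (J : Set X) := by
      by_contra hcon
      push Not at hcon
      have hinj : Function.Injective fun n : ℕ => (⟨y (Sum.inl n), hcon n⟩ : J) := by
        intro m n hmn
        exact Sum.inl_injective (hyinj _ _ (congrArg Subtype.val hmn))
      have hfin : Finite ℕ := Finite.of_injective _ hinj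
      exact _root_.not_finite ℕ
    obtain ⟨n, hn⟩ := hn
    obtain ⟨k, hk, hk1, hk0, -⟩ := hbump (y (Sum.inl n)) J J.finite_toSet.isClosed hn
    refine ⟨⟨fun z => f.1 z + (1 - f.1 (y (Sum.inl n))) * k z,
      f.2.add (continuous_const.mul hk)⟩, ?_, n, ?_⟩
    · apply huO
      intro z hz
      change f.1 z + (1 - f.1 (y (Sum.inl n))) * k z ∈ u z
      rw [hk0 z hz, mul_zero, add_zero]
      exact (hu z hz).2
    · change f.1 (y (Sum.inl n)) + (1 - f.1 (y (Sum.inl n))) * k (y (Sum.inl n)) ≠ 0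
      rw [hk1]
      norm_num
  have hkey := fun j : Pt T => key' w hw0 hw1 hT hb (S := S) (fun s a => s.1.1 (y a))
    (fun a => (continuous_apply (y a)).comp
      (continuous_subtype_val.comp continuous_subtype_val))
    (fun d => ⟨F d, hFS d⟩) ⟨I, hIS⟩ (fun d n => hFl d n) (fun d b => hFr d b)
    rfl (by
      rintro ⟨f, hf | ⟨d, hd⟩⟩
      · exact Or.inl hf
      · exact Or.inr ⟨d, Subtype.ext hd⟩) {d | M x j (g d)}
    ((M_countable x hT j).preimage_of_injOn g.injective.injOn)
  choose ψ hψc hψ0 hψ1 hψi using hkey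
  let Φ : S → (Pt T → ℝ) := fun s j => ψ j s
  have hΦ : Continuous Φ := continuous_pi fun j => hψc j
  have hΦd : ∀ q : Pt T, Φ ⟨F (g.symm q), hFS _⟩ = emb x (some q) := by
    intro q
    funext j
    by_cases h : M x j q
    · rw [emb_of x h]
      exact hψ0 j _ (by simpa using h)
    · rw [emb_of_not x h]
      exact hψ1 j _ (by simpa using h)
  have hΦi : Φ ⟨I, hIS⟩ = emb x none := by
    funext j
    exact hψi j
  have hrange : ∀ q, emb x q ∈ range Φ := by
    rintro (_ | q)
    · exact ⟨_, hΦi⟩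
    · exact ⟨_, hΦd q⟩
  refine ⟨S, G, hGo, hdense, hGS, range Φ, inferInstance, inferInstance, rangeFactorization Φ,
    hΦ.subtype_mk _, rangeFactorization_surjective, {y | y.1 ∈ range (emb x)}, ?_, ?_, ?_, ?_⟩
  · rw [Subtype.isCompact_iff]
    have : (Subtype.val '' {y : range Φ | y.1 ∈ range (emb x)}) = range (emb x) := by
      ext z
      constructor
      · rintro ⟨y, hy, rfl⟩
        exact hy
      · rintro ⟨q, rfl⟩
        exact ⟨⟨emb x q, hrange q⟩, ⟨q, rfl⟩, rfl⟩
    rw [this]
    exact compact_emb x hx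
  all_goals
    let B : Set (range Φ) := {y | y.1 ∈ range (emb x)}
    let c : B → Pt T → ℝ := fun b => b.1.1
    let p : Option (Pt T) → B := fun q => ⟨⟨emb x q, hrange q⟩, ⟨q, rfl⟩⟩
    have hc : IsInducing c := IsInducing.subtypeVal.comp IsInducing.subtypeVal
    have hp : ∀ q, c (p q) = emb x q := fun q => rfl
    have hs : Function.Surjective p := by
      intro b
      obtain ⟨q, hq⟩ := b.2
      exact ⟨q, Subtype.ext (Subtype.ext hq)⟩
  · exact tight_fail hT hc hp
  · exact seq_fail hT hc hp hs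
  · exact mono_fail hx hc hp

/-- The countable chain condition. -/
def CCC (X : Type) [TopologicalSpace X] : Prop :=
  ∀ V : Set (Set X), (∀ u ∈ V, IsOpen u ∧ u.Nonempty) → V.PairwiseDisjoint id → V.Countable

/-- Over every Tychonoff space with an uncountable discrete subspace all three properties fail. -/
theorem of_discrete (X : Type) [TopologicalSpace X] [T35Space X] (D : Set X)
    (hD : ¬ D.Countable) (hdisc : DiscreteTopology D) :
    ∃ S G : Set (Cp X), IsOpen G ∧ Dense G ∧ G ⊆ S ∧
      ∃ (Y : Type) (_ : TopologicalSpace Y) (_ : T35Space Y) (φ : S → Y),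
        Continuous φ ∧ Function.Surjective φ ∧
          ∃ B : Set Y, IsCompact B ∧ ℵ₀ < tightness B ∧ ¬ SequentialSpace B ∧
            ¬ Monolithic B := by
  let T : Type := (ℵ₁ : Cardinal.{0}).ord.ToType
  have hcard : #T = ℵ₁ := mk_ord_toType _
  have : Uncountable T := by
    rw [← Cardinal.aleph0_lt_mk_iff, hcard]
    exact aleph0_lt_aleph_one
  have hT : ∀ d : T, (Iic d).Countable := by
    intro d
    have h1 : (Iio d).Countable := by
      apply Cardinal.le_aleph0_iff_set_countable.1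
      have := Cardinal.mk_Iio_lt d (by rw [hcard]; exact (Ordinal.type_toType _).symm)
      rw [hcard] at this
      have h0 : (ℵ₁ : Cardinal.{0}) = Order.succ ℵ₀ := succ_aleph0.symm
      exact Order.lt_succ_iff.1 (this.trans_eq h0)
    rw [← Iio_insert]
    exact h1.insert d
  have hx : ∃ x : T → ℕ → Bool, Function.Injective x := by
    have : #T ≤ #(ℕ → Bool) := by
      rw [hcard]
      simpa using aleph_one_le_continuum
    obtain ⟨f⟩ := this
    exact ⟨f, f.injective⟩
  obtain ⟨x, hx⟩ := hx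
  have hg : Nonempty (T ≃ Pt T) := by
    rw [← Cardinal.eq]
    have h1 : (ℵ₁ : Cardinal.{0}) + ℵ₀ = ℵ₁ :=
      Cardinal.add_eq_left (aleph0_le_aleph 1) (aleph0_le_aleph 1)
    have h2 : (ℵ₁ : Cardinal.{0}) + ℵ₁ = ℵ₁ := Cardinal.add_eq_self (aleph0_le_aleph 1)
    simp [Pt, hcard, h1, h2]
  obtain ⟨g⟩ := hg
  have hemb : Nonempty ((ℕ ⊕ T) ↪ D) := by
    have h1 : #(ℕ ⊕ T) ≤ #D := by
      have h2 : #(ℕ ⊕ T) = ℵ₁ := by
        simp [hcard, Cardinal.add_eq_right (aleph0_le_aleph 1) (aleph0_le_aleph 1)]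
      rw [h2, show (ℵ₁ : Cardinal.{0}) = Order.succ ℵ₀ from succ_aleph0.symm, Order.succ_le_iff]
      by_contra hcon
      push Not at hcon
      exact hD (Cardinal.le_aleph0_iff_set_countable.1 hcon)
    exact h1
  obtain ⟨a⟩ := hemb
  have hopen : ∀ z : D, ∃ U : Set X, IsOpen U ∧ ∀ z' : D, z'.1 ∈ U ↔ z' = z := by
    intro z
    obtain ⟨U, hU, hUz⟩ := isOpen_induced_iff.1 (isOpen_discrete ({z} : Set D))
    refine ⟨U, hU, fun z' => ?_⟩
    have : z' ∈ ((↑) ⁻¹' U : Set D) ↔ z' ∈ ({z} : Set D) := by rw [hUz]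
    exact this
  choose U hUo hU using hopen
  exact main' hT x hx g X (fun i => (a i).1) (fun i => U (a i)) (fun i => hUo _)
    (fun i => (hU (a i) (a i)).2 rfl)
    (fun i k hki h => hki (a.injective ((hU (a i) (a k)).1 h)))

/-- Over every Tychonoff space without the countable chain condition all three
properties fail. -/
theorem not_ccc (X : Type) [TopologicalSpace X] [T35Space X] (hX : ¬ CCC X) :
    ∃ S G : Set (Cp X), IsOpen G ∧ Dense G ∧ G ⊆ S ∧
      ∃ (Y : Type) (_ : TopologicalSpace Y) (_ : T35Space Y) (φ : S → Y),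
        Continuous φ ∧ Function.Surjective φ ∧
          ∃ B : Set Y, IsCompact B ∧ ℵ₀ < tightness B ∧ ¬ SequentialSpace B ∧
            ¬ Monolithic B := by
  unfold CCC at hX
  push Not at hX
  obtain ⟨V, hV, hVd, hVc⟩ := hX
  have hpt : ∀ u : V, ∃ z, z ∈ u.1 := fun u => (hV u.1 u.2).2
  choose p hp using hpt
  have huniq : ∀ u v : V, p u ∈ v.1 → u = v := by
    intro u v huv
    by_contra hne
    exact Set.disjoint_left.1 (hVd u.2 v.2 (fun hh => hne (Subtype.ext hh))) (hp u) huv
  have hinj : Function.Injective p := fun u v huv => huniq u v (huv ▸ hp v)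
  refine of_discrete X (range p) ?_ ?_
  · intro hc
    apply hVc
    have h1 : Countable (range p) := hc.to_subtype
    have h2 : Countable V := (Set.rangeFactorization_injective.2 hinj).countable
    exact Set.countable_coe_iff.1 h2
  · rw [discreteTopology_iff_isOpen_singleton]
    rintro ⟨_, u, rfl⟩
    refine isOpen_induced_iff.2 ⟨u.1, (hV u.1 u.2).1, ?_⟩
    ext ⟨_, v, rfl⟩
    constructor
    · intro hv
      exact Subtype.ext (congrArg p (huniq v u hv))
    · intro hv
      have h1 : p v = p u := congrArg Subtype.val hv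
      change p v ∈ u.1
      rw [h1]
      exact hp u

end Pool.Agent.Y568.EB
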