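import Mathlib

open Set Filter Topology

namespace Pool.Agent.Y568.EB

/-- The countable chain condition. -/
def CCC' (X : Type) [TopologicalSpace X] : Prop :=
  ∀ V : Set (Set X), (∀ u ∈ V, IsOpen u ∧ u.Nonempty) → V.PairwiseDisjoint id → V.Countable

section
variable {X : Type} [TopologicalSpace X] {E : Type} [NormedAddCommGroup E] [NormedSpace ℝ E]

/-- A vector on which all functionals vanishing on `V` vanish belongs to the closed subspace `V`. -/
lemma mem_of_functionals (V : Submodule ℝ E) (hV : IsClosed (V : Set E)) (z : E)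
    (h : ∀ f : StrongDual ℝ E, (∀ w ∈ V, f w = 0) → f z = 0) : z ∈ V := by
  by_contra hz
  obtain ⟨f, u, hf, hu⟩ := geometric_hahn_banach_closed_point (V.convex) hV hz
  have h0 : ∀ w ∈ V, f w = 0 := by
    intro w hw
    by_contra hne
    have h1 := hf ((u / f w) • w) (V.smul_mem _ hw)
    rw [map_smul, smul_eq_mul, div_mul_cancel₀ _ hne] at h1
    exact lt_irrefl _ h1
  have h1 := h f h0
  have h2 := hf 0 V.zero_mem
  rw [map_zero] at h2
  linarith

/-- Fragmentation step: the splitting of an open set of large diameter. -/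
lemma split (j : X → E) (hj : ∀ f : StrongDual ℝ E, Continuous fun x => f (j x)) {ε : ℝ}
    (U : Set X) (hU : IsOpen U) (x y : X) (hx : x ∈ U) (hy : y ∈ U) (hxy : ε < ‖j x - j y‖) :
    ∃ (U0 U1 : Set X), IsOpen U0 ∧ IsOpen U1 ∧ U0.Nonempty ∧ U1.Nonempty ∧ U0 ⊆ U ∧ U1 ⊆ U ∧
      ∀ z ∈ closure U0, ∀ w ∈ closure U1, ε ≤ ‖j z - j w‖ := by
  obtain ⟨f, hf1, hf2⟩ := exists_dual_vector'' ℝ (j x - j y)
  have hf3 : f (j x) - f (j y) = ‖j x - j y‖ := by
    rw [← map_sub]
    simpa using hf2
  set δ : ℝ := (‖j x - j y‖ - ε) / 2 with hδ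
  have hδ0 : 0 < δ := by rw [hδ]; linarith
  refine ⟨U ∩ {z | f (j x) - δ < f (j z)}, U ∩ {z | f (j z) < f (j y) + δ},
    hU.inter (isOpen_lt continuous_const (hj f)), hU.inter (isOpen_lt (hj f) continuous_const),
    ⟨x, hx, by simp [hδ0]⟩, ⟨y, hy, by simp [hδ0]⟩, inter_subset_left, inter_subset_left, ?_⟩
  intro z hz w hw
  have h1 : f (j x) - δ ≤ f (j z) := by
    have hc : IsClosed {z | f (j x) - δ ≤ f (j z)} := isClosed_le continuous_const (hj f)
    exact closure_minimal
      (fun a ha => le_of_lt (show f (j x) - δ < f (j a) from ha.2)) hc hz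
  have h2 : f (j w) ≤ f (j y) + δ := by
    have hc : IsClosed {z | f (j z) ≤ f (j y) + δ} := isClosed_le (hj f) continuous_const
    exact closure_minimal
      (fun a ha => le_of_lt (show f (j a) < f (j y) + δ from ha.2)) hc hw
  have h3 : f (j z - j w) ≤ ‖j z - j w‖ := by
    have h4 := f.le_opNorm (j z - j w)
    have h5 : ‖f‖ * ‖j z - j w‖ ≤ 1 * ‖j z - j w‖ := by gcongr
    have h6 := Real.le_norm_self (f (j z - j w))
    linarith
  rw [map_sub] at h3
  linarith

/-- the initial segment of length `n` of a branch, the last entry first -/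
def pre (σ : ℕ → Bool) : ℕ → List Bool
  | 0 => []
  | n + 1 => σ n :: pre σ n

/-- Weakly compact sets are fragmented by the norm. -/
theorem frag [CompactSpace X] (j : X → E)
    (hj : ∀ f : StrongDual ℝ E, Continuous fun x => f (j x)) {ε : ℝ} (hε : 0 < ε) (V : Set X)
    (hV : IsOpen V) (hVn : V.Nonempty) :
    ∃ U : Set X, IsOpen U ∧ U.Nonempty ∧ U ⊆ V ∧ ∀ x ∈ U, ∀ y ∈ U, ‖j x - j y‖ ≤ ε := by
  classical
  by_contra hcon
  push Not at hcon
  let O : Type := {U : Set X // IsOpen U ∧ U.Nonempty ∧ U ⊆ V}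
  have hstep : ∀ U : O, ∃ q : O × O, q.1.1 ⊆ U.1 ∧ q.2.1 ⊆ U.1 ∧
      ∀ z ∈ closure q.1.1, ∀ w ∈ closure q.2.1, ε ≤ ‖j z - j w‖ := by
    rintro ⟨U, hUo, hUn, hUV⟩
    obtain ⟨x, hx, y, hy, hxy⟩ := hcon U hUo hUn hUV
    obtain ⟨U0, U1, h0, h1, h2, h3, h4, h5, h6⟩ := split j hj U hUo x y hx hy hxy
    exact ⟨(⟨U0, h0, h2, h4.trans hUV⟩, ⟨U1, h1, h3, h5.trans hUV⟩), h4, h5, h6⟩
  choose q hq0 hq1 hq2 using hstep
  let tr : List Bool → O := fun s =>
    List.rec (motive := fun _ => O) (⟨V, hV, hVn, subset_rfl⟩ : O)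
      (fun b _ U => if b then (q U).1 else (q U).2) s
  have htr1 : ∀ s, tr (true :: s) = (q (tr s)).1 := fun s => rfl
  have htr0 : ∀ s, tr (false :: s) = (q (tr s)).2 := fun s => rfl
  have hsub : ∀ b s, (tr (b :: s)).1 ⊆ (tr s).1 := by
    intro b s
    cases b
    · rw [htr0]; exact hq1 _
    · rw [htr1]; exact hq0 _
  have hpt : ∀ s, ∃ z, z ∈ (tr s).1 := fun s => (tr s).2.2.1
  choose pt hpt using hpt
  have hnest : ∀ (σ : ℕ → Bool) (m n : ℕ), m ≤ n → (tr (pre σ n)).1 ⊆ (tr (pre σ m)).1 := by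
    intro σ m n hmn
    induction n, hmn using Nat.le_induction with
    | base => exact subset_rfl
    | succ n _ ih => exact (hsub _ _).trans ih
  -- cluster points along the branches
  have hcl : ∀ σ : ℕ → Bool, ∃ z : X, MapClusterPt z atTop fun n => pt (pre σ n) := fun σ =>
    exists_clusterPt_of_compactSpace _
  choose c hc using hcl
  have hcU : ∀ σ m, c σ ∈ closure (tr (pre σ m)).1 := by
    intro σ m
    rw [mem_closure_iff_nhds]
    intro W hW
    have h1 := (hc σ).frequently hW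
    obtain ⟨n, hn, hnW⟩ := (frequently_atTop.1 h1) m
    exact ⟨_, hnW, hnest σ m n hn (hpt _)⟩
  let E0 : Submodule ℝ E := (Submodule.span ℝ (range fun s => j (pt s))).topologicalClosure
  have hE0c : IsClosed (E0 : Set E) := Submodule.isClosed_topologicalClosure _
  have hsep : TopologicalSpace.IsSeparable (E0 : Set E) := by
    have h1 : TopologicalSpace.IsSeparable (range fun s => j (pt s)) :=
      (countable_range _).isSeparable
    have h2 := (h1.span (R := ℝ)).closure
    exact h2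
  have hmem : ∀ σ, j (c σ) ∈ E0 := by
    intro σ
    apply mem_of_functionals E0 hE0c
    intro f hf
    have h1 : MapClusterPt (f (j (c σ))) atTop fun n => f (j (pt (pre σ n))) :=
      MapClusterPt.continuousAt_comp (f := fun z => f (j z)) (hj f).continuousAt (hc σ)
    have h2 : (fun n => f (j (pt (pre σ n)))) = fun _ => (0 : ℝ) := by
      funext n
      exact hf _ (Submodule.le_topologicalClosure _ (Submodule.subset_span ⟨_, rfl⟩))
    rw [h2] at h1
    have h3 : Tendsto (fun _ : ℕ => (0 : ℝ)) atTop (𝓝 0) := tendsto_const_nhds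
    exact eq_of_nhds_neBot (h1.neBot.mono (inf_le_inf_left _ h3))
  have hdist : ∀ σ τ : ℕ → Bool, σ ≠ τ → ε ≤ ‖j (c σ) - j (c τ)‖ := by
    intro σ τ hne
    have hex : ∃ n, σ n ≠ τ n := Function.ne_iff.1 hne
    let n := Nat.find hex
    have hn : σ n ≠ τ n := Nat.find_spec hex
    have hlt : ∀ m, m ≤ n → pre σ m = pre τ m := by
      intro m
      induction m with
      | zero => intro _; rfl
      | succ m ih =>
        intro hm
        have h1 : σ m = τ m := by
          by_contra hcon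
          exact Nat.find_min hex (Nat.lt_of_succ_le hm) hcon
        change σ m :: pre σ m = τ m :: pre τ m
        rw [h1, ih (by omega)]
    have h1 := hcU σ (n + 1)
    have h2 := hcU τ (n + 1)
    change c σ ∈ closure (tr (σ n :: pre σ n)).1 at h1
    change c τ ∈ closure (tr (τ n :: pre τ n)).1 at h2
    rw [← hlt n le_rfl] at h2
    rcases hs : σ n with _ | _
    · have ht : τ n = true := by
        rcases h : τ n with _ | _
        · exact absurd (hs.trans h.symm) hn
        · rfl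
      rw [hs, htr0] at h1
      rw [ht, htr1] at h2
      rw [norm_sub_rev]
      exact hq2 _ _ h2 _ h1
    · have ht : τ n = false := by
        rcases h : τ n with _ | _
        · rfl
        · exact absurd (hs.trans h.symm) hn
      rw [hs, htr1] at h1
      rw [ht, htr0] at h2
      exact hq2 _ _ h1 _ h2
  obtain ⟨D, hDc, hD⟩ := hsep
  have hch : ∀ σ, ∃ d ∈ D, ‖j (c σ) - d‖ < ε / 2 := by
    intro σ
    obtain ⟨d, hd, hd'⟩ := Metric.mem_closure_iff.1 (hD (hmem σ)) (ε / 2) (by linarith)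
    exact ⟨d, hd, by rwa [dist_eq_norm] at hd'⟩
  choose d hdD hd using hch
  have hinj : Function.Injective (fun σ => (⟨d σ, hdD σ⟩ : D)) := by
    intro σ τ hst
    have h1 : d σ = d τ := congrArg Subtype.val hst
    by_contra hne
    have h2 := hdist σ τ hne
    have h3 : ‖j (c σ) - j (c τ)‖ ≤ ‖j (c σ) - d σ‖ + ‖j (c τ) - d τ‖ := by
      have : j (c σ) - j (c τ) = (j (c σ) - d σ) - (j (c τ) - d τ) := by rw [h1]; abel
      rw [this]
      exact norm_sub_le _ _
    have := hd σ
    have := hd τ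
    linarith
  have : Countable D := hDc.to_subtype
  have hcount : Countable (ℕ → Bool) := hinj.countable
  obtain ⟨g, hg⟩ := exists_surjective_nat (ℕ → Bool)
  obtain ⟨m, hm⟩ := hg (fun n => !(g n n))
  have := congrFun hm m
  simp at this

/-- A weakly compact set with the countable chain condition is norm separable. -/
theorem separable_of_ccc [CompactSpace X] [T2Space X] (j : X → E)
    (hj : ∀ f : StrongDual ℝ E, Continuous fun x => f (j x)) (hX : CCC' X) :
    ∃ V : Submodule ℝ E, IsClosed (V : Set E) ∧ TopologicalSpace.IsSeparable (V : Set E) ∧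
      ∀ x, j x ∈ V := by
  classical
  -- maximal disjoint families of small open sets
  have hmax : ∀ n : ℕ, ∃ W : Set (Set X), W.Countable ∧
      (∀ u ∈ W, IsOpen u ∧ u.Nonempty ∧ ∀ x ∈ u, ∀ y ∈ u, ‖j x - j y‖ ≤ 1 / ((n : ℝ) + 1)) ∧
      Dense (⋃₀ W) := by
    intro n
    let C : Set (Set (Set X)) := {W | (∀ u ∈ W, IsOpen u ∧ u.Nonempty ∧
      ∀ x ∈ u, ∀ y ∈ u, ‖j x - j y‖ ≤ 1 / ((n : ℝ) + 1)) ∧ W.PairwiseDisjoint id}
    obtain ⟨W, hW⟩ := zorn_subset C (by
      intro c hcC hchain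
      refine ⟨⋃₀ c, ⟨?_, ?_⟩, fun s hs => subset_sUnion_of_mem hs⟩
      · rintro u ⟨s, hs, hus⟩
        exact (hcC hs).1 u hus
      · rintro u ⟨s, hs, hus⟩ v ⟨t, ht, hvt⟩ huv
        rcases hchain.total hs ht with hst | hts
        · exact (hcC ht).2 (hst hus) hvt huv
        · exact (hcC hs).2 hus (hts hvt) huv)
    refine ⟨W, hX W (fun u hu => ⟨(hW.prop.1 u hu).1, (hW.prop.1 u hu).2.1⟩) hW.prop.2,
      hW.prop.1, ?_⟩
    rw [dense_iff_inter_open]
    intro O hO hOn
    by_contra hcon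
    obtain ⟨u, huo, hun, huO, hu⟩ := frag j hj (show (0 : ℝ) < 1 / ((n : ℝ) + 1) by positivity)
      O hO hOn
    have hdisj : ∀ w ∈ W, Disjoint u w := by
      intro w hw
      rw [Set.disjoint_left]
      intro z hzu hzw
      exact hcon ⟨z, huO hzu, w, hw, hzw⟩
    have hin : insert u W ∈ C := by
      refine ⟨?_, ?_⟩
      · rintro v (rfl | hv)
        · exact ⟨huo, hun, hu⟩
        · exact hW.prop.1 v hv
      · refine hW.prop.2.insert ?_
        intro w hw _
        exact hdisj w hw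
    have hmem : u ∈ W := hW.le_of_ge hin (subset_insert _ _) (mem_insert _ _)
    obtain ⟨z, hz⟩ := hun
    exact Set.disjoint_left.1 (hdisj u hmem) hz hz
  choose W hWc hW hWd using hmax
  have hG : Dense (⋂ n, ⋃₀ W n) := dense_iInter_of_isOpen_nat
    (fun n => isOpen_sUnion fun u hu => (hW n u hu).1) hWd
  -- points
  have hpt : ∀ n (u : W n), ∃ z, z ∈ u.1 := fun n u => (hW n u.1 u.2).2.1
  choose pt hpt using hpt
  have : ∀ n, Countable (W n) := fun n => (hWc n).to_subtype
  let D : Set E := range fun a : Σ n, W n => j (pt a.1 a.2)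
  have hDc : D.Countable := countable_range _
  let V : Submodule ℝ E := (Submodule.span ℝ D).topologicalClosure
  have hVc : IsClosed (V : Set E) := Submodule.isClosed_topologicalClosure _
  have hVs : TopologicalSpace.IsSeparable (V : Set E) := by
    have h1 : TopologicalSpace.IsSeparable D := hDc.isSeparable
    exact (h1.span (R := ℝ)).closure
  refine ⟨V, hVc, hVs, fun x => ?_⟩
  have hGV : ∀ z ∈ ⋂ n, ⋃₀ W n, j z ∈ V := by
    intro z hz
    have h1 : j z ∈ closure D := by
      rw [Metric.mem_closure_iff]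
      intro ε hε
      obtain ⟨n, hn⟩ := exists_nat_one_div_lt hε
      obtain ⟨u, hu, hzu⟩ := mem_iInter.1 hz n
      refine ⟨j (pt n ⟨u, hu⟩), ⟨⟨n, ⟨u, hu⟩⟩, rfl⟩, ?_⟩
      rw [dist_eq_norm]
      exact lt_of_le_of_lt ((hW n u hu).2.2 _ hzu _ (hpt n ⟨u, hu⟩)) hn
    exact closure_mono (Submodule.subset_span (R := ℝ)) h1
  apply mem_of_functionals V hVc
  intro f hf
  have hc : IsClosed {z | f (j z) = 0} := isClosed_eq (hj f) continuous_const
  have h1 : closure (⋂ n, ⋃₀ W n) ⊆ {z | f (j z) = 0} :=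
    closure_minimal (fun z hz => hf _ (hGV z hz)) hc
  exact h1 (hG x)

/-- A compact space with countably many continuous real functions separating its points is
metrizable. -/
theorem metrizable_of_countable_separating {Y : Type} [TopologicalSpace Y] [CompactSpace Y]
    {ι : Type} [Countable ι] (f : ι → Y → ℝ) (hf : ∀ i, Continuous (f i))
    (hs : ∀ x y, x ≠ y → ∃ i, f i x ≠ f i y) : TopologicalSpace.MetrizableSpace Y := by
  let F : Y → ι → ℝ := fun y i => f i y
  have hF : Continuous F := continuous_pi hf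
  have hinj : Function.Injective F := by
    intro x y hxy
    by_contra hne
    obtain ⟨i, hi⟩ := hs x y hne
    exact hi (congrFun hxy i)
  have hemb : IsClosedEmbedding F := hF.isClosedEmbedding hinj
  exact hemb.isEmbedding.metrizableSpace

/-- Rosenthal's theorem: a weakly compact set with the countable chain condition is weakly
metrizable. -/
theorem rosenthal [CompactSpace X] [T2Space X] (j : X → E) (hinj : Function.Injective j)
    (hj : ∀ f : StrongDual ℝ E, Continuous fun x => f (j x)) (hX : CCC' X) :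
    TopologicalSpace.MetrizableSpace X := by
  obtain ⟨V, hVc, ⟨D, hDc, hD⟩, hV⟩ := separable_of_ccc j hj hX
  have : Countable D := hDc.to_subtype
  have hch : ∀ d : D, ∃ g : StrongDual ℝ E, ‖g‖ ≤ 1 ∧ g d.1 = ‖d.1‖ := by
    intro d
    obtain ⟨g, hg1, hg2⟩ := exists_dual_vector'' ℝ d.1
    exact ⟨g, hg1, by simpa using hg2⟩
  choose g hg1 hg2 using hch
  refine metrizable_of_countable_separating (fun (d : D) x => g d (j x)) (fun d => hj (g d)) ?_
  intro x y hxy
  have hne : j x - j y ≠ 0 := sub_ne_zero.2 (fun h => hxy (hinj h))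
  have hpos : 0 < ‖j x - j y‖ := norm_pos_iff.2 hne
  obtain ⟨d, hd, hd'⟩ := Metric.mem_closure_iff.1 (hD (V.sub_mem (hV x) (hV y)))
    (‖j x - j y‖ / 4) (by linarith)
  rw [dist_eq_norm] at hd'
  refine ⟨⟨d, hd⟩, fun heq => ?_⟩
  have h1 : g ⟨d, hd⟩ (j x - j y) = 0 := by
    rw [map_sub]
    exact sub_eq_zero.2 heq
  have h2 : g ⟨d, hd⟩ d = ‖d‖ := hg2 ⟨d, hd⟩
  have h3 : ‖d‖ ≤ ‖j x - j y - d‖ := by
    have h4 : g ⟨d, hd⟩ (d - (j x - j y)) = ‖d‖ := by rw [map_sub, h1, h2, sub_zero]
    have h5 := (g ⟨d, hd⟩).le_opNorm (d - (j x - j y))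
    have h6 : ‖g ⟨d, hd⟩‖ * ‖d - (j x - j y)‖ ≤ 1 * ‖d - (j x - j y)‖ := by
      gcongr
      exact hg1 _
    have h7 := Real.le_norm_self (g ⟨d, hd⟩ (d - (j x - j y)))
    rw [norm_sub_rev]
    linarith
  have h4 : ‖j x - j y‖ ≤ ‖j x - j y - d‖ + ‖d‖ := by
    have : j x - j y = (j x - j y - d) + d := by abel
    calc ‖j x - j y‖ = ‖(j x - j y - d) + d‖ := by rw [← this]
      _ ≤ _ := norm_add_le _ _
  linarith

end

end Pool.Agent.Y568.EB
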