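import Mathlib
import Pool.Agent.Results.MP_570618_gt.AllThreeFail
import Pool.Agent.Y568.EB.B

open Set Filter Topology Cardinal

namespace Pool.Agent.Y568.EB

open Pool.Agent.Results.MP_570618_gt.AllThreeFail

/-- A compact Hausdorff image of a second countable space is metrizable. -/
theorem metrizable_of_image {Z B : Type} [TopologicalSpace Z] [SecondCountableTopology Z]
    [TopologicalSpace B] [CompactSpace B] [T2Space B] (q : Z → B) (hq : Continuous q)
    (hs : Function.Surjective q) : TopologicalSpace.MetrizableSpace B := by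
  let ι : Type := {p : B × B // p.1 ≠ p.2}
  have hch : ∀ p : ι, ∃ f : B → ℝ, Continuous f ∧ f p.1.1 ≠ f p.1.2 := by
    intro p
    obtain ⟨f, hf, hf0, hf1⟩ := CompletelyRegularSpace.completely_regular p.1.1 {p.1.2}
      isClosed_singleton (fun h => p.2 h)
    refine ⟨fun z => (f z : ℝ), continuous_subtype_val.comp hf, ?_⟩
    have := hf1 (mem_singleton p.1.2)
    simp only [hf0, this]
    simp
  choose f hf hne using hch
  obtain ⟨T, hTc, hT⟩ := TopologicalSpace.isOpen_iUnion_countable
    (fun p : ι => {a : Z × Z | f p (q a.1) ≠ f p (q a.2)})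
    (fun p => isOpen_ne_fun ((hf p).comp (hq.comp continuous_fst))
      ((hf p).comp (hq.comp continuous_snd)))
  have : Countable T := hTc.to_subtype
  refine metrizable_of_countable_separating (fun (p : T) => f p.1) (fun p => hf p.1) ?_
  intro x y hxy
  obtain ⟨a, rfl⟩ := hs x
  obtain ⟨b, rfl⟩ := hs y
  have h1 : (a, b) ∈ ⋃ p : ι, {a : Z × Z | f p (q a.1) ≠ f p (q a.2)} :=
    mem_iUnion.2 ⟨⟨(q a, q b), hxy⟩, hne ⟨(q a, q b), hxy⟩⟩
  rw [← hT] at h1
  simp only [mem_iUnion] at h1
  obtain ⟨p, hp, hp'⟩ := h1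
  exact ⟨⟨p, hp⟩, hp'⟩

lemma second_countable (X : Type) [TopologicalSpace X] [CompactSpace X]
    [TopologicalSpace.MetrizableSpace X] : SecondCountableTopology X := by
  letI := TopologicalSpace.metrizableSpaceMetric X
  infer_instance

/-- Over a metrizable compact space, compact subsets of continuous images of subspaces of
`C_p(X)` are metrizable. -/
theorem metrizable_case (X : Type) [TopologicalSpace X] [CompactSpace X]
    [TopologicalSpace.MetrizableSpace X] (S : Set (Cp X)) (Y : Type) [TopologicalSpace Y]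
    [T35Space Y] (φ : S → Y) (hφ : Continuous φ) (hs : Function.Surjective φ) (B : Set Y)
    (hB : IsCompact B) : TopologicalSpace.MetrizableSpace B := by
  have := second_countable X
  have : CompactSpace B := isCompact_iff_compactSpace.1 hB
  let u : C(X, ℝ) → Cp X := fun f => ⟨f, f.continuous⟩
  have hu : Continuous u := by
    refine Continuous.subtype_mk ?_ _
    exact continuous_pi fun x => continuous_eval_const x
  let Z : Set C(X, ℝ) := {f | ∃ h : u f ∈ S, φ ⟨u f, h⟩ ∈ B}
  let q : Z → B := fun z => ⟨φ ⟨u z.1, z.2.1⟩, z.2.2⟩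
  have hq : Continuous q := by
    refine Continuous.subtype_mk ?_ _
    refine hφ.comp ?_
    exact Continuous.subtype_mk (hu.comp continuous_subtype_val) _
  refine metrizable_of_image q hq ?_
  rintro ⟨y, hy⟩
  obtain ⟨⟨f, hf⟩, rfl⟩ := hs y
  exact ⟨⟨⟨f.1, f.2⟩, hf, hy⟩, rfl⟩

/-- Compact metrizable spaces have countable tightness, are sequential and monolithic. -/
theorem good_of_metrizable (B : Type) [TopologicalSpace B] [CompactSpace B]
    [TopologicalSpace.MetrizableSpace B] :
    tightness B ≤ ℵ₀ ∧ SequentialSpace B ∧ Monolithic B := by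
  refine ⟨?_, inferInstance, ?_⟩
  · apply csInf_le'
    refine ⟨le_rfl, fun A z hz => ?_⟩
    obtain ⟨s, hs, hsz⟩ := mem_closure_iff_seq_limit.1 hz
    refine ⟨range s, ?_, (countable_range s).le_aleph0, ?_⟩
    · rintro _ ⟨n, rfl⟩
      exact hs n
    · exact mem_closure_of_tendsto hsz (Eventually.of_forall fun n => mem_range_self n)
  · intro A hA
    have := second_countable B
    have h1 : networkWeight (closure A) ≤ ℵ₀ := by
      obtain ⟨b, hbc, -, hb⟩ := TopologicalSpace.exists_countable_basis (closure A)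
      refine le_trans (csInf_le' ⟨b, ?_, rfl⟩) hbc.le_aleph0
      intro U hU z hz
      obtain ⟨M, hM, hzM, hMU⟩ := hb.exists_subset_of_mem_open hz hU
      exact ⟨M, hM, hzM, hMU⟩
    refine h1.trans ?_
    have := hA.to_subtype
    exact Cardinal.aleph0_le_mk A

end Pool.Agent.Y568.EB
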