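import Mathlib
import Pool.Agent.Results.MP_570618_gt.AllThreeFail
import Pool.Agent.Y568.EB.A
import Pool.Agent.Y568.EB.B

open Set Filter Topology Cardinal

namespace Pool.Agent.Y568.EB

open Pool.Agent.Results.MP_570618_gt.AllThreeFail

/-- The construction over an arbitrary Tychonoff space that has a bidiscrete system indexed by
`ℕ ⊕ T`. -/
theorem main_bi {T : Type} [LinearOrder T] [WellFoundedLT T] [Uncountable T]
    (hT : ∀ d : T, (Iic d).Countable) (x : T → ℕ → Bool) (hx : Function.Injective x)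
    (g : T ≃ Pt T) (X : Type) [TopologicalSpace X] [T35Space X]
    (p q : ℕ ⊕ T → X) (h : ℕ ⊕ T → X → ℝ) (hc : ∀ i, Continuous (h i))
    (h1 : ∀ i z, |h i z| ≤ 1) (hone : ∀ i, h i (p i) - h i (q i) = 1)
    (hbi : ∀ i k, k ≠ i → h i (p k) = h i (q k)) :
    ∃ S G : Set (Cp X), IsOpen G ∧ Dense G ∧ G ⊆ S ∧
      ∃ (Y : Type) (_ : TopologicalSpace Y) (_ : T35Space Y) (φ : S → Y),
        Continuous φ ∧ Function.Surjective φ ∧
          ∃ B : Set Y, IsCompact B ∧ ℵ₀ < tightness B ∧ ¬ SequentialSpace B ∧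
            ¬ Monolithic B := by
  classical
  have he : ∀ d : T, ∃ f : T → ℕ, InjOn f (Iio d) := fun d =>
    Set.countable_iff_exists_injOn.1 ((hT d).mono Iio_subset_Iic_self)
  choose e he using he
  have hb := bounded_of_countable hT
  have hbump : ∀ (z : X) (C : Set X), IsClosed C → z ∉ C → ∃ h : X → ℝ, Continuous h ∧
      h z = 1 ∧ (∀ a ∈ C, h a = 0) := by
    intro z C hC hz
    obtain ⟨f, hf, hf0, hf1⟩ := CompletelyRegularSpace.completely_regular z C hC hz
    refine ⟨fun a => 1 - (f a : ℝ), continuous_const.sub (continuous_subtype_val.comp hf),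
      by simp [hf0], fun a ha => ?_⟩
    have := hf1 ha
    simp [this]
  let w : T → T → ℝ := fun d b => (1 / 2) ^ (e d b + 1)
  have hw0 : ∀ d b, 0 < w d b := fun d b => by positivity
  have hw1 : ∀ d b, w d b ≤ 1 / 2 := by
    intro d b
    calc w d b = (1 / 2) ^ (e d b) * (1 / 2) := pow_succ _ _
      _ ≤ 1 * (1 / 2) := by
          gcongr
          exact pow_le_one₀ (by norm_num) (by norm_num)
      _ = 1 / 2 := one_mul _
  let cc : T → T → ℝ := fun d b => if b = d then 1 else if b < d then w d b else 0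
  have hcc0 : ∀ d b, 0 ≤ cc d b := by
    intro d b
    simp only [cc]
    split_ifs
    · exact zero_le_one
    · exact (hw0 d b).le
    · exact le_rfl
  have hcc : ∀ d, Summable (cc d) := by
    intro d
    have hs1 : Summable (Set.indicator {d} (fun _ : T => (1 : ℝ))) :=
      summable_of_hasFiniteSupport ((Set.finite_singleton d).subset (by
        intro b hb'
        by_contra hne
        exact hb' (Set.indicator_of_notMem hne _)))
    have hs2 : Summable (Set.indicator (Iio d) (w d)) := by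
      rw [← summable_subtype_iff_indicator]
      have hgeo : Summable fun n : ℕ => (1 / 2 : ℝ) ^ (n + 1) :=
        (summable_nat_add_iff 1).2 (summable_geometric_of_lt_one (by norm_num) (by norm_num))
      exact hgeo.comp_injective (i := fun b : Iio d => e d b.1)
        (fun a b hab => Subtype.ext (he d a.2 b.2 hab))
    refine (hs1.add hs2).congr ?_
    intro b
    simp only [cc]
    by_cases hbd : b = d
    · subst hbd
      rw [if_pos rfl, Set.indicator_of_mem (mem_singleton b),
        Set.indicator_of_notMem (show b ∉ Iio b from lt_irrefl b), add_zero]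
    · rw [if_neg hbd, Set.indicator_of_notMem (show b ∉ ({d} : Set T) from hbd), zero_add]
      by_cases hlt : b < d
      · rw [if_pos hlt, Set.indicator_of_mem (show b ∈ Iio d from hlt)]
      · rw [if_neg hlt, Set.indicator_of_notMem (show b ∉ Iio d from hlt)]
  have hbound : ∀ d b z, ‖cc d b * h (Sum.inr b) z‖ ≤ cc d b := by
    intro d b z
    rw [Real.norm_eq_abs, abs_mul, abs_of_nonneg (hcc0 d b)]
    calc cc d b * |h (Sum.inr b) z| ≤ cc d b * 1 :=
          mul_le_mul_of_nonneg_left (h1 _ z) (hcc0 d b)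
      _ = cc d b := mul_one _
  have hsum : ∀ d z, Summable fun b => cc d b * h (Sum.inr b) z := fun d z =>
    Summable.of_norm_bounded (hcc d) (fun b => hbound d b z)
  let F : T → Cp X := fun d => ⟨fun z => ∑' b, cc d b * h (Sum.inr b) z,
    continuous_tsum (fun b => continuous_const.mul (hc _)) (hcc d) (hbound d)⟩
  have hFsub : ∀ d (a c : X), (F d).1 a - (F d).1 c =
      ∑' b, cc d b * (h (Sum.inr b) a - h (Sum.inr b) c) := by
    intro d a c
    change (∑' b, cc d b * h (Sum.inr b) a) - (∑' b, cc d b * h (Sum.inr b) c) = _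
    rw [← (hsum d a).tsum_sub (hsum d c)]
    exact tsum_congr fun b => by ring
  have hFr : ∀ d k, (F d).1 (p (Sum.inr k)) - (F d).1 (q (Sum.inr k)) = cc d k := by
    intro d k
    rw [hFsub, tsum_eq_single k]
    · rw [hone, mul_one]
    · intro b hbk
      rw [hbi _ _ (fun hh => hbk (Sum.inr_injective hh).symm), sub_self, mul_zero]
  have hFl : ∀ d n, (F d).1 (p (Sum.inl n)) - (F d).1 (q (Sum.inl n)) = 0 := by
    intro d n
    rw [hFsub, tsum_congr (fun b => by rw [hbi _ _ Sum.inl_ne_inr, sub_self, mul_zero]),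
      tsum_zero]
  let I : Cp X := ⟨fun z => 2 * h (Sum.inl 0) z, continuous_const.mul (hc _)⟩
  have hI : I.1 (p (Sum.inl 0)) - I.1 (q (Sum.inl 0)) = 2 := by
    change 2 * h (Sum.inl 0) (p (Sum.inl 0)) - 2 * h (Sum.inl 0) (q (Sum.inl 0)) = 2
    have := hone (Sum.inl 0)
    linarith
  let G : Set (Cp X) := {f | ∃ n, f.1 (p (Sum.inl n)) - f.1 (q (Sum.inl n)) ≠ 0}
  let S : Set (Cp X) := {f | (∃ n, f.1 (p (Sum.inl n)) - f.1 (q (Sum.inl n)) ≠ 0) ∨ ∃ d, f = F d}
  have hFS : ∀ d, F d ∈ S := fun d => Or.inr ⟨d, rfl⟩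
  have hIS : I ∈ S := Or.inl ⟨0, by rw [hI]; norm_num⟩
  have hGS : G ⊆ S := fun f hf => Or.inl hf
  have hev : ∀ z : X, Continuous fun f : Cp X => f.1 z := fun z =>
    (continuous_apply z).comp continuous_subtype_val
  have hGo : IsOpen G := by
    have : G = ⋃ n, {f : Cp X | f.1 (p (Sum.inl n)) - f.1 (q (Sum.inl n)) ≠ 0} := by
      ext f
      simp [G]
    rw [this]
    exact isOpen_iUnion fun n => isOpen_ne_fun ((hev _).sub (hev _)) continuous_const
  have hpq : ∀ i, p i ≠ q i := by
    intro i hi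
    have := hone i
    rw [hi, sub_self] at this
    norm_num at this
  have hdense : Dense G := by
    intro f
    rw [mem_closure_iff]
    rintro O hO hfO
    obtain ⟨O', hO', rfl⟩ := isOpen_induced_iff.1 hO
    obtain ⟨J, u, hu, huO⟩ := isOpen_pi_iff.1 hO' f.1 hfO
    have hn : ∃ n : ℕ, p (Sum.inl n) ∉ (J : Set X) ∨ q (Sum.inl n) ∉ (J : Set X) := by
      by_contra hcon
      push Not at hcon
      have hinj : Function.Injective fun n : ℕ =>
          ((⟨p (Sum.inl n), (hcon n).1⟩, ⟨q (Sum.inl n), (hcon n).2⟩) : J × J) := by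
        intro m n hmn
        have e1 : p (Sum.inl m) = p (Sum.inl n) := congrArg Subtype.val (congrArg Prod.fst hmn)
        have e2 : q (Sum.inl m) = q (Sum.inl n) := congrArg Subtype.val (congrArg Prod.snd hmn)
        by_contra hne
        have h3 := hbi (Sum.inl m) (Sum.inl n) (fun hh => hne (Sum.inl_injective hh).symm)
        have h4 := hone (Sum.inl m)
        rw [e1, e2, h3, sub_self] at h4
        norm_num at h4
      have hfin : Finite ℕ := Finite.of_injective _ hinj
      exact _root_.not_finite ℕ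
    have key : ∀ (a c : X), a ≠ c → a ∉ (J : Set X) → ∃ k : Cp X, (∀ z ∈ J, k.1 z = 0) ∧
        k.1 a = 1 ∧ k.1 c = 0 := by
      intro a c hac ha
      obtain ⟨k, hk, hk1, hk0⟩ := hbump a ((J : Set X) ∪ {c})
        (J.finite_toSet.isClosed.union isClosed_singleton) (by
          rintro (h | h)
          · exact ha h
          · exact hac h)
      exact ⟨⟨k, hk⟩, fun z hz => hk0 z (Or.inl hz), hk1, hk0 c (Or.inr rfl)⟩
    obtain ⟨n, hn⟩ := hn
    have hk : ∃ k : Cp X, (∀ z ∈ J, k.1 z = 0) ∧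
        k.1 (p (Sum.inl n)) - k.1 (q (Sum.inl n)) ≠ 0 := by
      rcases hn with hn | hn
      · obtain ⟨k, hk0, hk1, hk2⟩ := key _ _ (hpq (Sum.inl n)) hn
        exact ⟨k, hk0, by rw [hk1, hk2]; norm_num⟩
      · obtain ⟨k, hk0, hk1, hk2⟩ := key _ _ (hpq (Sum.inl n)).symm hn
        exact ⟨k, hk0, by rw [hk1, hk2]; norm_num⟩
    obtain ⟨k, hk0, hk1⟩ := hk
    by_cases hf : f.1 (p (Sum.inl n)) - f.1 (q (Sum.inl n)) = 0
    · refine ⟨⟨fun z => f.1 z + k.1 z, f.2.add k.2⟩, ?_, n, ?_⟩
      · apply huO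
        intro z hz
        change f.1 z + k.1 z ∈ u z
        rw [hk0 z hz, add_zero]
        exact (hu z hz).2
      · change f.1 (p (Sum.inl n)) + k.1 (p (Sum.inl n)) -
          (f.1 (q (Sum.inl n)) + k.1 (q (Sum.inl n))) ≠ 0
        intro h0
        apply hk1
        linarith
    · exact ⟨f, hfO, n, hf⟩
  have hkey := fun j : Pt T => key' w hw0 hw1 hT hb (S := S)
    (fun s a => s.1.1 (p a) - s.1.1 (q a))
    (fun a => ((hev _).comp continuous_subtype_val).sub ((hev _).comp continuous_subtype_val))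
    (fun d => ⟨F d, hFS d⟩) ⟨I, hIS⟩ (fun d n => hFl d n) (fun d b => hFr d b)
    hI (by
      rintro ⟨f, hf | ⟨d, hd⟩⟩
      · exact Or.inl hf
      · exact Or.inr ⟨d, Subtype.ext hd⟩) {d | M x j (g d)}
    ((M_countable x hT j).preimage_of_injOn g.injective.injOn)
  choose ψ hψc hψ0 hψ1 hψi using hkey
  let Φ : S → (Pt T → ℝ) := fun s j => ψ j s
  have hΦ : Continuous Φ := continuous_pi fun j => hψc j
  have hΦd : ∀ q : Pt T, Φ ⟨F (g.symm q), hFS _⟩ = emb x (some q) := by
    intro q
    funext j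
    by_cases h : M x j q
    · rw [emb_of x h]
      exact hψ0 j _ (by simpa using h)
    · rw [emb_of_not x h]
      exact hψ1 j _ (by simpa using h)
  have hΦi : Φ ⟨I, hIS⟩ = emb x none := by
    funext j
    exact hψi j
  have hrange : ∀ q, emb x q ∈ range Φ := by
    rintro (_ | q)
    · exact ⟨_, hΦi⟩
    · exact ⟨_, hΦd q⟩
  refine ⟨S, G, hGo, hdense, hGS, range Φ, inferInstance, inferInstance, rangeFactorization Φ,
    hΦ.subtype_mk _, rangeFactorization_surjective, {y | y.1 ∈ range (emb x)}, ?_, ?_, ?_, ?_⟩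
  · rw [Subtype.isCompact_iff]
    have : (Subtype.val '' {y : range Φ | y.1 ∈ range (emb x)}) = range (emb x) := by
      ext z
      constructor
      · rintro ⟨y, hy, rfl⟩
        exact hy
      · rintro ⟨q, rfl⟩
        exact ⟨⟨emb x q, hrange q⟩, ⟨q, rfl⟩, rfl⟩
    rw [this]
    exact compact_emb x hx
  all_goals
    let B : Set (range Φ) := {y | y.1 ∈ range (emb x)}
    let c : B → Pt T → ℝ := fun b => b.1.1
    let p : Option (Pt T) → B := fun q => ⟨⟨emb x q, hrange q⟩, ⟨q, rfl⟩⟩
    have hc : IsInducing c := IsInducing.subtypeVal.comp IsInducing.subtypeVal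
    have hp : ∀ q, c (p q) = emb x q := fun q => rfl
    have hs : Function.Surjective p := by
      intro b
      obtain ⟨q, hq⟩ := b.2
      exact ⟨q, Subtype.ext (Subtype.ext hq)⟩
  · exact tight_fail hT hc hp
  · exact seq_fail hT hc hp hs
  · exact mono_fail hx hc hp

/-- Over every Tychonoff space with an uncountable bidiscrete system all three properties fail. -/
theorem of_bidiscrete (X : Type) [TopologicalSpace X] [T35Space X] (D : Type)
    (hD : ℵ₁ ≤ #D) (p q : D → X) (h : D → X → ℝ) (hc : ∀ i, Continuous (h i))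
    (h1 : ∀ i z, |h i z| ≤ 1) (hone : ∀ i, h i (p i) - h i (q i) = 1)
    (hbi : ∀ i k, k ≠ i → h i (p k) = h i (q k)) :
    ∃ S G : Set (Cp X), IsOpen G ∧ Dense G ∧ G ⊆ S ∧
      ∃ (Y : Type) (_ : TopologicalSpace Y) (_ : T35Space Y) (φ : S → Y),
        Continuous φ ∧ Function.Surjective φ ∧
          ∃ B : Set Y, IsCompact B ∧ ℵ₀ < tightness B ∧ ¬ SequentialSpace B ∧
            ¬ Monolithic B := by
  let T : Type := (ℵ₁ : Cardinal.{0}).ord.ToType
  have hcard : #T = ℵ₁ := mk_ord_toType _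
  have : Uncountable T := by
    rw [← Cardinal.aleph0_lt_mk_iff, hcard]
    exact aleph0_lt_aleph_one
  have hT : ∀ d : T, (Iic d).Countable := by
    intro d
    have h1 : (Iio d).Countable := by
      apply Cardinal.le_aleph0_iff_set_countable.1
      have := Cardinal.mk_Iio_lt d (by rw [hcard]; exact (Ordinal.type_toType _).symm)
      rw [hcard] at this
      have h0 : (ℵ₁ : Cardinal.{0}) = Order.succ ℵ₀ := succ_aleph0.symm
      exact Order.lt_succ_iff.1 (this.trans_eq h0)
    rw [← Iio_insert]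
    exact h1.insert d
  have hx : ∃ x : T → ℕ → Bool, Function.Injective x := by
    have : #T ≤ #(ℕ → Bool) := by
      rw [hcard]
      simpa using aleph_one_le_continuum
    obtain ⟨f⟩ := this
    exact ⟨f, f.injective⟩
  obtain ⟨x, hx⟩ := hx
  have hg : Nonempty (T ≃ Pt T) := by
    rw [← Cardinal.eq]
    have h1 : (ℵ₁ : Cardinal.{0}) + ℵ₀ = ℵ₁ :=
      Cardinal.add_eq_left (aleph0_le_aleph 1) (aleph0_le_aleph 1)
    have h2 : (ℵ₁ : Cardinal.{0}) + ℵ₁ = ℵ₁ := Cardinal.add_eq_self (aleph0_le_aleph 1)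
    simp [Pt, hcard, h1, h2]
  obtain ⟨g⟩ := hg
  have hemb : Nonempty ((ℕ ⊕ T) ↪ D) := by
    have h1 : #(ℕ ⊕ T) ≤ #D := by
      have h2 : #(ℕ ⊕ T) = ℵ₁ := by
        simp [hcard, Cardinal.add_eq_right (aleph0_le_aleph 1) (aleph0_le_aleph 1)]
      rw [h2]
      exact hD
    exact h1
  obtain ⟨a⟩ := hemb
  exact main_bi hT x hx g X (fun i => p (a i)) (fun i => q (a i)) (fun i => h (a i))
    (fun i => hc _) (fun i z => h1 _ z) (fun i => hone _)
    (fun i k hki => hbi _ _ (fun hh => hki (a.injective hh)))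

end Pool.Agent.Y568.EB
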