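import Mathlib
import Pool.Agent.Results.MP_570618_gt.AllThreeFail
import Pool.Agent.Y568.EB.A
import Pool.Agent.Y568.EB.B
import Pool.Agent.Y568.EB.C
import Pool.Agent.Y568.EB.D

open Set Filter Topology Cardinal

namespace Pool.Agent.Y568.EB

open Pool.Agent.Results.MP_570618_gt.AllThreeFail

/-- `V` is contained in the closure of a countable set. -/
def Sp {X : Type} [TopologicalSpace X] (V : Set X) : Prop :=
  ∃ c : Set X, c.Countable ∧ V ⊆ closure c

/-- In a nonseparable space with the countable chain condition there is a nonempty open set no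
nonempty open subset of which is separable. -/
theorem exists_nowhere_separable (X : Type) [TopologicalSpace X] (hccc : CCC X)
    (hX : ¬ ∃ c : Set X, c.Countable ∧ Dense c) :
    ∃ O : Set X, IsOpen O ∧ O.Nonempty ∧ ∀ V ⊆ O, IsOpen V → V.Nonempty → ¬ Sp V := by
  classical
  let Q : Set (Set (Set X)) := {W | (∀ u ∈ W, IsOpen u ∧ u.Nonempty ∧ Sp u) ∧
    W.PairwiseDisjoint id}
  obtain ⟨W, hW⟩ := zorn_subset Q (by
    intro c hcC hchain
    refine ⟨⋃₀ c, ⟨?_, ?_⟩, fun s hs => subset_sUnion_of_mem hs⟩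
    · rintro u ⟨s, hs, hus⟩
      exact (hcC hs).1 u hus
    · rintro u ⟨s, hs, hus⟩ v ⟨t, ht, hvt⟩ huv
      rcases hchain.total hs ht with hst | hts
      · exact (hcC ht).2 (hst hus) hvt huv
      · exact (hcC hs).2 hus (hts hvt) huv)
  have hWc : W.Countable := hccc W (fun u hu => ⟨(hW.prop.1 u hu).1, (hW.prop.1 u hu).2.1⟩)
    hW.prop.2
  have : Countable W := hWc.to_subtype
  have hch : ∀ u : W, ∃ c : Set X, c.Countable ∧ u.1 ⊆ closure c := fun u =>
    (hW.prop.1 u.1 u.2).2.2
  choose c hcc hcs using hch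
  let C : Set X := ⋃ u, c u
  have hC : C.Countable := countable_iUnion hcc
  have hWC : ∀ u ∈ W, u ⊆ closure C := fun u hu =>
    (hcs ⟨u, hu⟩).trans (closure_mono (subset_iUnion c ⟨u, hu⟩))
  refine ⟨(closure C)ᶜ, isClosed_closure.isOpen_compl, ?_, ?_⟩
  · rw [nonempty_compl]
    intro h
    exact hX ⟨C, hC, dense_iff_closure_eq.2 h⟩
  · intro V hVO hVo hVn hV
    have hdisj : ∀ u ∈ W, Disjoint V u := by
      intro u hu
      rw [Set.disjoint_left]
      intro z hzV hzu
      exact hVO hzV (hWC u hu hzu)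
    have hin : insert V W ∈ Q := by
      refine ⟨?_, ?_⟩
      · rintro v (rfl | hv)
        · exact ⟨hVo, hVn, hV⟩
        · exact hW.prop.1 v hv
      · refine hW.prop.2.insert ?_
        intro u hu _
        exact hdisj u hu
    have hmem : V ∈ W := hW.le_of_ge hin (subset_insert _ _) (mem_insert _ _)
    obtain ⟨z, hz⟩ := hVn
    exact Set.disjoint_left.1 (hdisj V hmem) hz hz

/-- A pair of points with a function that takes them apart. -/
def Ent (X : Type) [TopologicalSpace X] : Type :=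
  {e : X × X × (X → ℝ) // Continuous e.2.2 ∧ (∀ z, |e.2.2 z| ≤ 1) ∧
    e.2.2 e.1 - e.2.2 e.2.1 = 1}

theorem step (X : Type) [TopologicalSpace X] [CompactSpace X] [T2Space X] (O : Set X)
    (hO : IsOpen O) (hOn : O.Nonempty) (hOs : ∀ V ⊆ O, IsOpen V → V.Nonempty → ¬ Sp V)
    (P : Set (Ent X)) (hP : P.Countable) :
    ∃ e' : Ent X, ∀ e ∈ P, e'.1.2.2 e.1.1 = 0 ∧ e'.1.2.2 e.1.2.1 = 0 ∧
      e.1.2.2 e'.1.1 = e.1.2.2 e'.1.2.1 := by
  classical
  let A0 : Set X := (fun e : Ent X => e.1.1) '' P ∪ (fun e : Ent X => e.1.2.1) '' P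
  have hA0 : A0.Countable := (hP.image _).union (hP.image _)
  have hne : (O \ closure A0).Nonempty := by
    by_contra hcon
    rw [not_nonempty_iff_eq_empty, sdiff_eq_empty] at hcon
    exact hOs O subset_rfl hO hOn ⟨A0, hA0, hcon⟩
  obtain ⟨z, hzO, hzA⟩ := hne
  have hnhds : O \ closure A0 ∈ 𝓝 z := (hO.sdiff isClosed_closure).mem_nhds ⟨hzO, hzA⟩
  obtain ⟨t, ht, htc, hts⟩ := exists_mem_nhds_isClosed_subset hnhds
  have : CompactSpace t := isCompact_iff_compactSpace.1 htc.isCompact
  have : Countable P := hP.to_subtype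
  have hex : ∃ a ∈ t, ∃ b ∈ t, a ≠ b ∧ ∀ e ∈ P, e.1.2.2 a = e.1.2.2 b := by
    by_contra hcon
    push Not at hcon
    have hm : TopologicalSpace.MetrizableSpace t :=
      metrizable_of_countable_separating (fun (e : P) (y : t) => e.1.1.2.2 y.1)
        (fun e => e.1.2.1.comp continuous_subtype_val) (by
          intro a b hab
          obtain ⟨e, he, hne⟩ := hcon a.1 a.2 b.1 b.2 (fun h => hab (Subtype.ext h))
          exact ⟨⟨e, he⟩, hne⟩)
    have hsc := second_countable t
    obtain ⟨c, hc, hcd⟩ := TopologicalSpace.exists_countable_dense t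
    have hsub : t ⊆ closure ((↑) '' c : Set X) := by
      intro y hy
      have h1 := image_closure_subset_closure_image (continuous_subtype_val (p := fun y => y ∈ t))
        (s := c) ⟨⟨y, hy⟩, hcd ⟨y, hy⟩, rfl⟩
      exact h1
    exact hOs (interior t) (interior_subset.trans (hts.trans sdiff_subset)) isOpen_interior
      ⟨z, mem_interior_iff_mem_nhds.2 ht⟩ ⟨_, hc.image _, interior_subset.trans hsub⟩
  obtain ⟨a, ha, b, hb, hab, hP'⟩ := hex
  obtain ⟨f, hf, hf0, hf1⟩ := CompletelyRegularSpace.completely_regular a (closure A0 ∪ {b})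
    (isClosed_closure.union isClosed_singleton) (by
      rintro (h | h)
      · exact (hts ha).2 h
      · exact hab h)
  have hfb : (f b : ℝ) = 1 := by
    have := hf1 (show b ∈ closure A0 ∪ {b} from Or.inr rfl)
    simp [this]
  refine ⟨⟨(a, b, fun x => 1 - (f x : ℝ)), continuous_const.sub (continuous_subtype_val.comp hf),
    fun x => ?_, ?_⟩, ?_⟩
  · rw [abs_le]
    have h1 := (f x).2.1
    have h2 := (f x).2.2
    constructor <;> linarith
  · change (1 - (f a : ℝ)) - (1 - (f b : ℝ)) = 1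
    rw [hfb, hf0]
    norm_num
  · intro e he
    refine ⟨?_, ?_, hP' e he⟩
    · have := hf1 (show e.1.1 ∈ closure A0 ∪ {b} from
        Or.inl (subset_closure (Or.inl ⟨e, he, rfl⟩)))
      change 1 - (f e.1.1 : ℝ) = 0
      simp [this]
    · have := hf1 (show e.1.2.1 ∈ closure A0 ∪ {b} from
        Or.inl (subset_closure (Or.inr ⟨e, he, rfl⟩)))
      change 1 - (f e.1.2.1 : ℝ) = 0
      simp [this]

/-- Over every nonseparable compact Hausdorff space all three properties fail. -/
theorem of_nonseparable (X : Type) [TopologicalSpace X] [CompactSpace X] [T2Space X]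
    (hX : ¬ ∃ c : Set X, c.Countable ∧ Dense c) :
    ∃ S G : Set (Cp X), IsOpen G ∧ Dense G ∧ G ⊆ S ∧
      ∃ (Y : Type) (_ : TopologicalSpace Y) (_ : T35Space Y) (φ : S → Y),
        Continuous φ ∧ Function.Surjective φ ∧
          ∃ B : Set Y, IsCompact B ∧ ℵ₀ < tightness B ∧ ¬ SequentialSpace B ∧
            ¬ Monolithic B := by
  classical
  by_cases hccc : CCC X
  · obtain ⟨O, hO, hOn, hOs⟩ := exists_nowhere_separable X hccc hX
    have hstep : ∀ P : Set (Ent X), ∃ e' : Ent X, P.Countable → ∀ e ∈ P,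
        e'.1.2.2 e.1.1 = 0 ∧ e'.1.2.2 e.1.2.1 = 0 ∧ e.1.2.2 e'.1.1 = e.1.2.2 e'.1.2.1 := by
      intro P
      by_cases hP : P.Countable
      · obtain ⟨e', he'⟩ := step X O hO hOn hOs P hP
        exact ⟨e', fun _ => he'⟩
      · obtain ⟨e', -⟩ := step X O hO hOn hOs ∅ countable_empty
        exact ⟨e', fun h => absurd h hP⟩
    choose nxt hnxt using hstep
    let T : Type := (ℵ₁ : Cardinal.{0}).ord.ToType
    have hcard : #T = ℵ₁ := mk_ord_toType _
    have hT : ∀ d : T, (Iio d).Countable := by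
      intro d
      apply Cardinal.le_aleph0_iff_set_countable.1
      have := Cardinal.mk_Iio_lt d (by rw [hcard]; exact (Ordinal.type_toType _).symm)
      rw [hcard] at this
      have h0 : (ℵ₁ : Cardinal.{0}) = Order.succ ℵ₀ := succ_aleph0.symm
      exact Order.lt_succ_iff.1 (this.trans_eq h0)
    let a : T → Ent X := WellFounded.fix (r := ((· < ·) : T → T → Prop)) wellFounded_lt
      (fun ξ prev => nxt (range fun η : Iio ξ => prev η.1 η.2))
    have ha : ∀ ξ, a ξ = nxt (range fun η : Iio ξ => a η.1) := fun ξ =>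
      WellFounded.fix_eq _ _ _
    have hR : ∀ η ξ, η < ξ → (a ξ).1.2.2 (a η).1.1 = 0 ∧ (a ξ).1.2.2 (a η).1.2.1 = 0 ∧
        (a η).1.2.2 (a ξ).1.1 = (a η).1.2.2 (a ξ).1.2.1 := by
      intro η ξ hηξ
      have : Countable (Iio ξ) := (hT ξ).to_subtype
      have h1 := hnxt (range fun η : Iio ξ => a η.1) (countable_range _) (a η)
        ⟨⟨η, hηξ⟩, rfl⟩
      rw [← ha ξ] at h1
      exact h1
    refine of_bidiscrete X T hcard.ge (fun ξ => (a ξ).1.1) (fun ξ => (a ξ).1.2.1)
      (fun ξ => (a ξ).1.2.2) (fun ξ => (a ξ).2.1) (fun ξ z => (a ξ).2.2.1 z)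
      (fun ξ => (a ξ).2.2.2) ?_
    intro i k hki
    rcases lt_or_gt_of_ne hki with hlt | hlt
    · obtain ⟨h1, h2, -⟩ := hR k i hlt
      exact h1.trans h2.symm
    · exact (hR i k hlt).2.2
  · exact not_ccc X hccc

end Pool.Agent.Y568.EB
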